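import Pool.Agent.Q66.SH.Stm

/-!
Project SH (helper66, MP_dcad15_an), job LAY: layer cake comparison.
-/

set_option autoImplicit false

open Filter Topology MeasureTheory
open scoped ENNReal

namespace Pool.Agent.Q182.SH

open Pool.Agent.Q66.SH

/-- the distribution function -/
noncomputable def dis (z : ℕ → ℝ≥0∞) (t : ℝ) : ℝ≥0∞ :=
  ((({i | ENNReal.ofReal t < z i} : Set ℕ).encard : ℕ∞) : ℝ≥0∞)

theorem dis_antitone (z : ℕ → ℝ≥0∞) : Antitone (dis z) := by
  intro s t h
  refine ENat.toENNReal_le.2 (Set.encard_le_encard ?_)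
  intro i hi
  exact lt_of_le_of_lt (ENNReal.ofReal_le_ofReal h) hi

theorem layer (p : ℝ) (hp : 0 < p) (z : ℕ → ℝ≥0∞) (hz : ∀ i, z i ≠ ∞) :
    ∑' i, z i ^ p = ENNReal.ofReal p *
      ∫⁻ t in Set.Ioi (0 : ℝ), dis z t * ENNReal.ofReal (t ^ (p - 1)) := by
  have h := lintegral_rpow_eq_lintegral_meas_lt_mul (Measure.count : Measure ℕ)
    (f := fun i => (z i).toReal) (Eventually.of_forall fun i => ENNReal.toReal_nonneg)
    (measurable_of_countable _).aemeasurable hp
  rw [lintegral_count] at h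
  have h1 : ∀ i, ENNReal.ofReal ((z i).toReal ^ p) = z i ^ p := by
    intro i
    rw [← ENNReal.ofReal_rpow_of_nonneg ENNReal.toReal_nonneg hp.le, ENNReal.ofReal_toReal (hz i)]
  simp only [h1] at h
  rw [h]
  congr 1
  refine setLIntegral_congr_fun measurableSet_Ioi fun t ht => ?_
  have ht' : (0 : ℝ) < t := ht
  show Measure.count {a | t < (z a).toReal} * _ = dis z t * _
  rw [Measure.count_apply (MeasurableSet.of_discrete)]
  congr 2
  refine congrArg Set.encard ?_
  ext i
  exact (ENNReal.ofReal_lt_iff_lt_toReal ht'.le (hz i)).symm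

theorem layer_sum (p : ℝ) (hp : 0 < p) (n : ℕ) (y : ℕ → ℕ → ℝ≥0∞) (hy : ∀ j i, y j i ≠ ∞) :
    ∑ j ∈ Finset.range n, ∑' i, y j i ^ p = ENNReal.ofReal p *
      ∫⁻ t in Set.Ioi (0 : ℝ), (∑ j ∈ Finset.range n, dis (y j) t) *
        ENNReal.ofReal (t ^ (p - 1)) := by
  rw [Finset.sum_congr rfl fun j _ => layer p hp (y j) (hy j), ← Finset.mul_sum]
  congr 1
  simp only [Finset.sum_mul]
  rw [lintegral_finsetSum]
  intro j _
  refine Measurable.mul (dis_antitone (y j)).measurable ?_
  exact ENNReal.measurable_ofReal.comp (measurable_id.pow_const _)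

theorem toENNReal_sum (n : ℕ) (f : ℕ → ℕ∞) :
    ((∑ j ∈ Finset.range n, f j : ℕ∞) : ℝ≥0∞) = ∑ j ∈ Finset.range n, (f j : ℝ≥0∞) :=
  map_sum ENat.toENNRealRingHom f (Finset.range n)

theorem t_LAY : S_LAY := by
  intro p hp n x y hx hy
  rw [layer p hp x hx, layer_sum p hp n y hy]
  constructor
  · intro h
    refine mul_le_mul_right ?_ _
    refine setLIntegral_mono' measurableSet_Ioi fun t ht => ?_
    refine mul_le_mul_left ?_ _
    have ht' : (0 : ℝ) < t := ht
    have h1 := h (ENNReal.ofReal t) (by simpa using ht')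
    have h2 := ENat.toENNReal_le.2 h1
    rw [toENNReal_sum] at h2
    exact h2
  · intro h
    refine mul_le_mul_right ?_ _
    refine setLIntegral_mono' measurableSet_Ioi fun t ht => ?_
    refine mul_le_mul_left ?_ _
    have ht' : (0 : ℝ) < t := ht
    have h1 := h (ENNReal.ofReal t) (by simpa using ht')
    have h2 := ENat.toENNReal_le.2 h1
    rw [toENNReal_sum] at h2
    exact h2

end Pool.Agent.Q182.SH
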