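import Pool.Agent.Q66.SH.Stm

/-!
Project SH (helper66, MP_dcad15_an), job LOWC.
-/

set_option autoImplicit false

open Filter Topology
open scoped ENNReal

namespace Pool.Agent.Q182.SH

open Pool.Agent.Q66.SH

theorem add_rpow_le (p : ℝ) (hp : 0 < p) (x y : ℝ≥0∞) :
    (x + y) ^ p ≤ 2 ^ p * (x ^ p + y ^ p) := by
  rcases le_total x y with h | h
  · calc (x + y) ^ p ≤ (2 * y) ^ p := by
          refine ENNReal.rpow_le_rpow ?_ hp.le
          rw [two_mul]
          gcongr
      _ = 2 ^ p * y ^ p := ENNReal.mul_rpow_of_nonneg _ _ hp.le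
      _ ≤ 2 ^ p * (x ^ p + y ^ p) := by
          gcongr
          exact le_add_self
  · calc (x + y) ^ p ≤ (2 * x) ^ p := by
          refine ENNReal.rpow_le_rpow ?_ hp.le
          rw [two_mul]
          gcongr
      _ = 2 ^ p * x ^ p := ENNReal.mul_rpow_of_nonneg _ _ hp.le
      _ ≤ 2 ^ p * (x ^ p + y ^ p) := by
          gcongr
          exact le_self_add

theorem t_LOWC (hU : S_SVU) (hL : S_SVL) (hP : S_BP) : S_LOWC := by
  intro H _ _ _ p hp C D E s hs hC
  have h1 : ∀ m, ENNReal.ofReal (s (m + m)) ≤ brn m D + apx m E := fun m =>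
    hP H C D E m m (s (m + m)) hC (hL H C s (m + m) hs)
  have hanti := hs.1
  calc pw p C = ∑' n, apx n C ^ p := rfl
    _ ≤ ∑' n, ENNReal.ofReal (s n) ^ p :=
        ENNReal.tsum_le_tsum fun n => ENNReal.rpow_le_rpow (hU H C s n hs) hp.le
    _ = ∑' m, ENNReal.ofReal (s (2 * m)) ^ p + ∑' m, ENNReal.ofReal (s (2 * m + 1)) ^ p :=
        (tsum_even_add_odd (f := fun n => ENNReal.ofReal (s n) ^ p) ENNReal.summable
          ENNReal.summable).symm
    _ ≤ ∑' m, ENNReal.ofReal (s (2 * m)) ^ p + ∑' m, ENNReal.ofReal (s (2 * m)) ^ p := by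
        gcongr with m
        exact hanti (Nat.le_succ _)
    _ = 2 * ∑' m, ENNReal.ofReal (s (m + m)) ^ p := by
        rw [← two_mul]
        simp only [two_mul]
    _ ≤ 2 * ∑' m, 2 ^ p * (brn m D ^ p + apx m E ^ p) := by
        gcongr with m
        exact (ENNReal.rpow_le_rpow (h1 m) hp.le).trans (add_rpow_le p hp _ _)
    _ = ENNReal.ofReal (2 ^ (p + 1)) * (∑' m, brn m D ^ p + pw p E) := by
        rw [ENNReal.tsum_mul_left, ENNReal.tsum_add, ← mul_assoc]
        congr 1
        rw [Real.rpow_add_one (by norm_num), ENNReal.ofReal_mul (by positivity),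
          ← ENNReal.ofReal_rpow_of_pos (by norm_num), ENNReal.ofReal_ofNat, mul_comm]

end Pool.Agent.Q182.SH
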